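import Pool.Agent.R900.EX.FermatSpread

/-!
# The conjectures of Beilinson and Tate for smooth varieties generated by products of Fermat
# varieties

Let `m` be prime to the prime `p`. We call the degree `m` good for `p` (`GoodDegree`) if

* all prime divisors of `m` lie in `{2, 3, 5}`, or all in `{2, 3, 7}`, or all in `{2, q}` for a prime
  `q` congruent to seven modulo eight, or `4` does not divide `m` and all lie in `{2, 3, 11}`, or all
  in `{2, 3, 13}`; here `p` is any prime that does not divide `m`; or
* `m = u v`, or `m = 2 u v` with odd `u v`, where `u`, `v` are powers of two different primes and `-1`
  is a power of `p` modulo `u` and modulo `v`, but not necessarily modulo `m`; or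
* `p` and the odd primes dividing `m` are squares modulo the (other) odd primes dividing `m`, with
  some conditions on orders (`Squares`); for example if `4` does not divide `m`, `p` has odd order
  modulo `m` and the odd primes dividing `m` are squares modulo each other.

`Homology Ω V` are data of motivic homology `M X n j = H_n^M(X, ℚ(j)) = CH_j(X, n - 2 j) ⊗ ℚ` (higher
Chow groups) and of `ℓ`-adic homology `E X n j = H_n(X, ℚ_ℓ(j))` of schemes `X : V` of finite type over
finite fields, with the Frobenius and the regulator. Let `𝒢` (`Generated`) be the smallest class of
schemes that contains all products of Fermat varieties `x_0 ^ m + ... + x_(n+1) ^ m = 0`, of any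
dimensions, of the same degree `m` that is good for the characteristic (`IsFermat`), that is closed
under direct summands of finite sums of twists of motives, and that contains all of a closed subscheme
`Z` of `X`, `X` and `X ∖ Z` if it contains two of them. For example, it contains the quotients of these
varieties by finite groups, the products of Fermat curves `x ^ m + y ^ m + z ^ m = 0` and of curves
dominated by them, the affine Fermat varieties and the complements of coordinate hyperplanes.

Let `𝒮` (`Spread`) be the smallest class that contains `𝒢` and all schemes for which the surjectivity and
the semisimplicity are known in all degrees, all open subschemes (with an arbitrary complement) and all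
images under proper morphisms of its members, the schemes that are the union of a closed and an open
member, and the schemes whose motives are direct summands of sums of twists of motives of members. For
example it contains all varieties dominated by an open subset of a member of `𝒢`, such as the diagonal
and the Delsarte varieties dominated by Fermat varieties of degree `m`.

The index `i` is the dimension of the cycles: for a smooth variety `X` of dimension `g` the group
`H_(2 i)(X, ℚ_ℓ(i))` is `H^(2 (g - i))(X, ℚ_ℓ(g - i))`, and `CH_i(X) = CH^(g - i)(X)`.

**Theorem.**

* For all `X` in `𝒮` and all `i` the cycle class map is surjective onto the Galois invariants, and the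
  eigenvalue one of the Frobenius is semisimple (Q2, and surjectivity in Q1).
* For all `X` in `𝒢` and all `i` the cycle class map is bijective (Q1), and the eigenvalue one of the
  Frobenius is semisimple.
* The same holds for the complement `U = X ∖ Z` of an arbitrary closed subscheme `Z` of dimension at
  most `d` of a scheme `X` in `𝒢`, for all `i ≥ d` (for smooth `X`: in all codimensions at most the
  codimension of `Z`).

Properties that are used for the products `X` of Fermat varieties. `IsCyc`: Poincaré duality, the formal
properties of correspondences, Deligne's theorem, the nilpotence of homologically trivial
correspondences (Kimura; the motive of `X` is a direct summand of a sum of twists of motives of products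
of curves by Shioda and Katsura), the operation of the Frobenius endomorphism on higher Chow groups
(Soulé) and the vanishing of the higher rational `K`-groups of a finite field (Quillen). `HasLines`: the
decomposition of the cohomology into lines labelled by multisets of residues modulo `m`, the theorem of
Stickelberger, and the algebraicity of lines whose label becomes, after raising the degree, composed of
labels of surfaces and of standard labels (Tate, Shioda, Katsura, Aoki). That the labels of all Tate
classes of good degrees are composed in this way was proved in the starting files
(`MP_021685_ag.FermatEveryCharacteristic`, `MP_950c68_ag.FermatTwoPrimes`,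
`MP_0d42ed_ag.FermatEvenOrders`). The passage from there to all degrees and to the class `𝒢`
(`tb_fermat`, in `Pool/Agent/R900/EX/Fermat.lean`) is due to Soulé, Geisser, Kahn and Jannsen.
-/

set_option autoImplicit false

namespace Pool.Agent.Results.MP_81632f_ag.FermatVarieties

open Pool.Agent.W495.FM Pool.Agent.R900.EX

/-- Surjectivity and semisimplicity for the class `Spread`, and bijectivity for the class `Generated`
and on complements for cycles of dimension at least that of the closed subscheme that is removed. -/
theorem result (Ω : Type) [Field Ω] [IsAlgClosed Ω] [CharZero Ω] (V : Type) (T : Homology Ω V)
    (hT : IsHomology T) (hW : HasWeights T) :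
    (∀ X : V, Spread T (fun X => Generated T (IsFermat T) X ∨ ∀ i, IsOnto T X i) X →
      ∀ i, IsOnto T X i) ∧
    (∀ X : V, Generated T (IsFermat T) X → ∀ i, IsIso T X i) ∧
      IsoAbove T (IsFermat T) :=
  ⟨fun _ hX i => onto_spread_fermat hT hW hX i, fun _ hX i => (tb_fermat hT hX).iso hT i,
    isoAbove_fermat hT hW⟩

end Pool.Agent.Results.MP_81632f_ag.FermatVarieties
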