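import Pool.Agent.R937.PZ.Mot

/-!
# The conjectures of Beilinson and Tate for smooth varieties generated by products of abelian varieties of
# dimension at most three, the threefolds not ordinary

An abelian variety over the field with `p ^ a` elements is modelled by `RedAV` (Honda, Tate): a
finite product of CM types `(E i, Φ i)` with Weil numbers `π i ∈ E i` that satisfy the formula of
Shimura and Taniyama; its cohomology of degree `n` consists of the alternating `n`-forms on the Tate
module `Ω ⊗ H_1`, on which the Frobenius endomorphism acts by `π`.

We consider (`IsGoodAVP`) the abelian varieties `Y` of the following kinds:

* all abelian varieties of dimension at most five;
* the abelian varieties that are isogenous, over an algebraic closure, to a product of a supersingular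
  abelian variety of any dimension and of abelian varieties of dimension at most three (any number, any
  multiplicity), such that any two factors of dimension three whose CM fields have the same Galois
  closure satisfy one of the following: their fields are Galois over `ℚ`; one of them is supersingular;
  they are isogenous; **neither of them is ordinary and their `p`-ranks are not `{1, 2}`**.

So `Y` may be any product of elliptic curves, of abelian surfaces and of abelian threefolds that all
have `p`-rank two, or that all have `p`-rank zero or one; nonisogenous threefolds with the same CM field,
or with different CM fields with the same Galois closure, are allowed. The theorems in the starting files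
(`IsGoodAVS`) exclude two nonisogenous threefolds that are not supersingular and whose CM fields have the
same Galois closure, unless these fields are Galois over `ℚ`; for instance they exclude the products of
two nonisogenous threefolds of `p`-rank two with the same CM field with a Galois group of order `24`
or `48`.

`Homology Ω V` are data of motivic homology (higher Chow groups) and of `ℓ`-adic homology of schemes
`X` over a finite field, with the Frobenius and the regulator. Let `𝒢` (`Generated`) be the smallest
class of schemes that contains those with the homology groups of the abelian varieties above, that is
closed under direct summands of finite sums of twists of motives, and that contains all of a closed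
subscheme `Z` of `X`, `X` and `X ∖ Z` if it contains two of them. Let `𝒮` (`Spread`) be the smallest
class that contains `𝒢` and all schemes for which the surjectivity and the semisimplicity
are known in all degrees, all open subschemes (with an arbitrary complement) and all images under
proper morphisms of its members, the schemes that are the union of a closed and an open member, and
the schemes whose motives are direct summands of sums of twists of motives of members.

The index `i` is the dimension of the cycles: for a smooth variety `X` of dimension `g` the group
`H_(2 i)(X, ℚ_ℓ(i))` is `H^(2 (g - i))(X, ℚ_ℓ(g - i))`, and `CH_i(X) = CH^(g - i)(X)`.

**Theorem.**

* For all `X` in `𝒮` and all `i` the cycle class map is surjective onto the Galois invariants, and the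
  eigenvalue one of the Frobenius is semisimple (Q2, and surjectivity in Q1).
* For all `X` in `𝒢` and all `i` the cycle class map is bijective (Q1), and the eigenvalue one of the
  Frobenius is semisimple.
* The same holds for the complement `U = X ∖ Z` of an arbitrary closed subscheme `Z` of dimension at
  most `d` of a scheme `X` in `𝒢`, for all `i ≥ d` (for smooth `X`: in all codimensions at most the
  codimension of `Z`).

The main step is `Pool.Agent.R937.PG.main` (in `Pool/Agent/R937/PZ`): all Tate classes on all powers of
`Y` are in `AlgS`, that is, they are generated by classes of degree two, by reductions of split Weil
classes of degree four and six, and by reductions of Hodge classes of degree four on products of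
elliptic curves and abelian surfaces. The algebraicity of these classes, which is used, consists of
theorems of Tate, Markman and Ramón Marí.
-/

set_option autoImplicit false

namespace Pool.Agent.Results.MP_81632f_ag.NonOrdinaryThreefolds

open Pool.Agent.W495.TA Pool.Agent.W495.FM Pool.Agent.Y137.GN Pool.Agent.R937.PG

/-- Surjectivity and semisimplicity for the class `Spread`, and bijectivity for the class `Generated`
and on complements for cycles of dimension at least that of the closed subscheme that is removed. -/
theorem result (p : ℕ) [Fact p.Prime] (ν : PadicAlgCl p ≃+* ℂ) (Ω : Type) [Field Ω]
    [IsAlgClosed Ω] [CharZero Ω] (V : Type) (T : Homology Ω V) (hT : IsHomology T)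
    (hW : HasWeights T) :
    (∀ X : V, Spread T (fun X => Generated T (IsGoodAbelianP p ν T) X ∨ ∀ i, IsOnto T X i) X →
      ∀ i, IsOnto T X i) ∧
    (∀ X : V, Generated T (IsGoodAbelianP p ν T) X → ∀ i, IsIso T X i) ∧
      IsoAbove T (IsGoodAbelianP p ν T) :=
  ⟨fun _ hX i => onto_spread_goodP hT hW hX i, fun _ hX i => (tb_goodP hT hX).iso hT i,
    isoAbove_goodP hT hW⟩

end Pool.Agent.Results.MP_81632f_ag.NonOrdinaryThreefolds
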