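import Pool.Agent.R427.AR3

/-!
# Symmetric powers of elliptic curves twisted by a quadratic character

Let `K` be the function field of a curve over the field `k` with `q` elements, of characteristic at
least five, `l` an odd prime divisor of `q ^ 2 - 1` and `χ` the character of a quadratic extension
`K(√u)` with class number prime to `l`. Let `E` be a semistable elliptic curve over `K` such that `l`
divides the number of points of all good reductions, for example a curve with a `K`-rational point of
order five or seven. If the places of bad reduction do not split in `K(√u)` (and `l` does not divide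
`q_v + 1` if they are unramified), then over all extensions `L` of `K` in which are contained in Galois
extensions of degree a power of `l` in which no place ramifies that splits in `K(√u)`, the `L`-functions
of `Sym ^ n E ⊗ χ` have, for all `n`, no zero at any integer: Frobenius has no eigenvalue which is a
power of `q` on the cohomology of the curve with coefficients in these sheaves.
-/

set_option autoImplicit false
set_option linter.all false
set_option maxHeartbeats 4000000

open Polynomial Pool.Agent.W343.BSD Pool.Agent.W313.Gr Pool.Agent.R427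

namespace Pool.Agent.Results.MP_81632f_ag.SymmetricPowers

section defs

variable {k K : Type} [Field k] [Field K] [Algebra k K]

/-- The curve `y ^ 2 = x ^ 3 + a x + b` has bad reduction at `v`. -/
def IsBad (v : FF.Place k K) (a b : K) : Prop := v.ord (minDisc v a b) ≠ 0

/-- The curve `y ^ 2 = x ^ 3 + a x + b` is elliptic, the reduction at all places is good or
multiplicative (the coefficient of `x` of the minimal model is a unit), and `l` divides the number of
points of the reduction at all places of good reduction. -/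
structure IsCurveMod (l : ℕ) (k : Type) {K : Type} [Field k] [Field K] [Algebra k K] (a b : K) :
    Prop where
  disc : 4 * a ^ 3 + 27 * b ^ 2 ≠ 0
  semistable : ∀ v : FF.Place k K, IsBad v a b → minA v a b ≠ 0 ∧ v.ord (minA v a b) = 0
  points : ∀ v : FF.Place k K, ¬ IsBad v a b → (l : ℤ) ∣ Nat.card (S.Res v) + 1 - S.trace v a b

/-- The element `u` is a square in the completion of `K` at `v`: if `u` is not a square in `K`, then
`v` splits in `K(√u)`. -/
def Splits (v : FF.Place k K) (u : K) : Prop :=
  ∃ s : K, u = s ^ 2 ∨ v.ord u < v.ord (u - s ^ 2)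

/-- The places of bad reduction are ramified in `K(√u)`, or they are inert and `l` does not divide
`q_v + 1`. -/
def IsInert (l : ℕ) (k : Type) {K : Type} [Field k] [Field K] [Algebra k K] (a b u : K) : Prop :=
  ∀ v : FF.Place k K, IsBad v a b → Odd (v.ord u) ∨
    (¬ Splits v u ∧ ¬ l ∣ Nat.card (S.Res v) + 1)

/-- `G` is the `L`-function of `Sym ^ n E ⊗ χ`: the product of `G` with the Euler factors
`AR.symLoc n v a b u` is `1`. -/
def IsSymL (n : ℕ) (k : Type) {K : Type} [Field k] [Field K] [Algebra k K] (a b u : K) (G : ℤ[X]) :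
    Prop :=
  (G : PowerSeries ℤ) * eulerProd (fun v : FF.Place k K => S.deg v)
    (fun v => (AR.symLoc n v a b u : PowerSeries ℤ)) = 1

/-- For all `n`, if the `L`-function of `Sym ^ n E ⊗ χ` is a polynomial `G(T)` in `ℤ[T]` then for all
integers `j` the rational number `G(q ^ j)` is not zero and its `l`-adic valuation is zero. -/
def NoIntegerZero (l : ℕ) (k : Type) {K : Type} [Field k] [Field K] [Algebra k K] (a b u : K) :
    Prop :=
  ∀ (n : ℕ) (G : ℤ[X]), IsSymL n k a b u G → ∀ j : ℤ,
    (G.map (Int.castRingHom ℚ)).eval (((Nat.card k : ℕ) : ℚ) ^ j) ≠ 0 ∧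
      padicValRat l ((G.map (Int.castRingHom ℚ)).eval (((Nat.card k : ℕ) : ℚ) ^ j)) = 0

/-- `M` is the function field of a curve over `k` and is `K(√u)`. -/
def IsQuadField (k K M : Type) [Field k] [Field K] [Field M] [Algebra k M] [Algebra K M] (u : K) :
    Prop :=
  IsCurveField k M ∧ ∃ θ : M, θ ^ 2 = algebraMap K M u ∧ IntermediateField.adjoin K {θ} = ⊤

/-- `L'` is a Galois extension of `K` of degree a power of `l` in which the places of `K` in `T` are
not ramified. -/
def IsExtension (l : ℕ) (k K L' : Type) [Field k] [Field K] [Field L'] [Algebra k K]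
    [Algebra k L'] [Algebra K L'] (T : Set (FF.Place k K)) : Prop :=
  FiniteDimensional K L' ∧ IsGalois K L' ∧ (∃ n : ℕ, Module.finrank K L' = l ^ n) ∧
    ∀ v ∈ T, ∀ (w : FF.Place k L') (e : ℕ), 0 < e →
      (∀ x : K, w.ord (algebraMap K L' x) = e * v.ord x) → e = 1

/-- The field `L` is contained in a Galois extension of `K` of degree a power of `l` in which the
places of `K` in `T` are not ramified. -/
def InExtension (l : ℕ) (k K L : Type) [Field k] [Field K] [Field L] [Algebra k K] [Algebra k L]
    [Algebra K L] (T : Set (FF.Place k K)) : Prop :=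
  ∃ (L' : Type) (_ : Field L') (_ : Algebra k L') (_ : Algebra K L') (_ : Algebra L L'),
    IsScalarTower k K L' ∧ IsScalarTower K L L' ∧ IsExtension l k K L' T

/-- The places which split in `K(√u)` or for which `l` divides `q_v + 1`. -/
def badSet (l : ℕ) (k : Type) {K : Type} [Field k] [Field K] [Algebra k K] (u : K) :
    Set (FF.Place k K) :=
  {v | Splits v u ∨ l ∣ Nat.card (S.Res v) + 1}

/-- The conclusions over `L`: for the curves over `L`, and for the curves over `K`. -/
def Conclusion (l : ℕ) (k : Type) {K : Type} (L : Type) [Field k] [Field K] [Field L] [Algebra k K]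
    [Algebra k L] [Algebra K L] (u : K) : Prop :=
  (∀ a b : L, IsCurveMod l k a b → IsInert l k a b (algebraMap K L u) →
    NoIntegerZero l k a b (algebraMap K L u)) ∧
  ∀ a b : K, IsCurveMod l k a b → IsInert l k a b u →
    NoIntegerZero l k (algebraMap K L a) (algebraMap K L b) (algebraMap K L u)

open Classical in
/-- `y ^ 2 = x ^ 3 + a x + b` is an elliptic curve with a `K`-rational point of order `l`. -/
def HasPointOfOrder (l : ℕ) (a b : K) : Prop :=
  4 * a ^ 3 + 27 * b ^ 2 ≠ 0 ∧ ∃ P : (curve a b).toAffine.Point, addOrderOf P = l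

end defs

section proof

theorem IsCurveMod.semi {l : ℕ} {k K : Type} [Field k] [Field K] [Algebra k K] {a b : K}
    (h : IsCurveMod l k a b) (v : FF.Place k K) : TW.SemiAt v a b := by
  by_cases hv : v.ord (minDisc v a b) = 0
  · exact Or.inl hv
  · exact Or.inr (h.semistable v hv)

theorem IsCurveMod.pts {l : ℕ} {k K : Type} [Field k] [Field K] [Algebra k K] {a b : K}
    (h : IsCurveMod l k a b) : PointsDvd l k a b :=
  fun v hv => h.points v fun h1 => h1 hv

theorem isCurveMod_of {l : ℕ} {k K : Type} [Field k] [Field K] [Algebra k K] {a b : K}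
    (hΔ : 4 * a ^ 3 + 27 * b ^ 2 ≠ 0) (hS : ∀ v : FF.Place k K, TW.SemiAt v a b)
    (hP : PointsDvd l k a b) : IsCurveMod l k a b :=
  ⟨hΔ, fun v hv => (hS v).resolve_left hv, fun v hv => hP v (not_not.1 hv)⟩

theorem ne_of_dvd {l : ℕ} {k : Type} [Field k] [Finite k] (hl : l.Prime)
    (hq : l ∣ Nat.card k ^ 2 - 1) : ((l : ℕ) : k) ≠ 0 := by
  intro h0
  obtain ⟨p, hp⟩ := CharP.exists k
  have hpp : p.Prime := CharP.char_is_prime k p
  let _ : Fintype k := Fintype.ofFinite k
  obtain ⟨n, -, hn⟩ := FiniteField.card k p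
  have h1 : p ∣ l := (CharP.cast_eq_zero_iff k p l).1 h0
  have h2 := (Nat.prime_dvd_prime_iff_eq hpp hl).1 h1
  subst h2
  rw [Nat.card_eq_fintype_card, hn, ← pow_mul] at hq
  have hn0 : (n : ℕ) * 2 ≠ 0 := mul_ne_zero n.ne_zero two_ne_zero
  have h3 : p ∣ p ^ ((n : ℕ) * 2) := dvd_pow_self p hn0
  have h4 : 1 ≤ p ^ ((n : ℕ) * 2) := Nat.one_le_pow _ _ hpp.pos
  have h5 := (Nat.dvd_sub_iff_right h4 h3).1 hq
  exact hpp.one_lt.ne' (Nat.dvd_one.1 h5)

theorem noZero_of {l : ℕ} [Fact l.Prime] {k K : Type} [Field k] [Finite k] [Field K] [Algebra k K]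
    [FF.IsFF k K] (hlk : ((l : ℕ) : k) ≠ 0) (hlo : Odd l)
    (hq2 : ((Nat.card k : ℕ) : ZMod l) ^ 2 = 1) {a b u : K} (hP : PointsDvd l k a b)
    (hΔ : 4 * a ^ 3 + 27 * b ^ 2 ≠ 0)
    (hbad : ∀ v : FF.Place k K, v.ord (minDisc v a b) ≠ 0 → TH639.B3.chi v u = 0 ∨
      (TH639.B3.chi v u = -1 ∧ ((Nat.card k : ℕ) : ZMod l) ^ v.deg = 1)) (hrel : AQ.NR2 l k u) :
    NoIntegerZero l k a b u := by
  intro n G hG j
  have hq := card_ne_zero_mod (k := k) hlk
  have hG' : (G : PowerSeries ℤ) * eulerProd (fun v : FF.Place k K => v.deg)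
      (fun v => (AR.symLoc n v a b u : PowerSeries ℤ)) = 1 := by
    have e : (fun v : FF.Place k K => v.deg) = fun v => S.deg v := by
      funext v
      rw [S.deg_eq]
    rw [e]
    exact hG
  exact AR.int_value hq j
    (AR.sym_value hlk hlo hq2 hP hΔ hbad hrel n hG' (AR.zpow_pm hq hq2 j))

theorem conclusion_of {l : ℕ} {k K L : Type} [Field k] [Finite k] [Field K] [Algebra k K]
    [FF.IsFF k K] [Field L] [Algebra k L] [Algebra K L] [IsScalarTower k K L] (h6 : (6 : k) ≠ 0)
    (hl : l.Prime) (hl2 : l ≠ 2) (hq : l ∣ Nat.card k ^ 2 - 1) {u : K} (hu : u ≠ 0)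
    (hL : InExtension l k K L (badSet l k u)) (h : AQ.NR2 l k u) : Conclusion l k L u := by
  have : Fact l.Prime := ⟨hl⟩
  have hlk := ne_of_dvd hl hq
  have hq2 := AR.card_sq (l := l) hq
  have hlo : Odd l := hl.odd_of_ne_two hl2
  have hl3 : 2 < l := lt_of_le_of_ne hl.two_le (Ne.symm hl2)
  obtain ⟨L', i1, i2, i3, i4, t1, t2, hfd, hgal, ⟨N, hN⟩, hram⟩ := hL
  have hfdL : FiniteDimensional L L' := Module.Finite.of_restrictScalars_finite K L L'
  have hfdKL : FiniteDimensional K L := Module.Finite.left K L L'
  obtain ⟨n, -, hn⟩ : ∃ n ≤ N, Module.finrank K L = l ^ n := by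
    rw [← Nat.dvd_prime_pow hl, ← hN, ← Module.finrank_mul_finrank K L L']
    exact dvd_mul_right _ _
  have hNR : AQ.NR2 l k (algebraMap K L u) := by
    refine AQ.rel_sub2 hlo h6 hlk n K L L' N hN hn u hu ?_ h
    rintro v ⟨w, e, hov, he⟩
    constructor
    · intro h1
      exact he (hram v (Or.inl (TW.chi_one_iff.1 h1)) w e hov.1 hov.2)
    · intro h1
      refine he (hram v (Or.inr ?_) w e hov.1 hov.2)
      rw [← ZMod.natCast_eq_zero_iff]
      push_cast
      rw [show ((Nat.card (S.Res v) : ℕ) : ZMod l) = ((Nat.card k : ℕ) : ZMod l) ^ v.deg from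
        card_RFl v, h1]
      ring
  have hFFL : FF.IsFF k L := isFF_of_finite (K := K)
  constructor
  · intro a b hab hin
    exact noZero_of hlk hlo hq2 hab.pts hab.disc (AR.inert_conv hq2 hin) hNR
  · intro a b hab hin
    have hΔ := hab.disc
    have hΔ' : 4 * algebraMap K L a ^ 3 + 27 * algebraMap K L b ^ 2 ≠ 0 := by
      rw [TW.disc_map']
      exact (_root_.map_ne_zero _).2 hΔ
    obtain ⟨hP', hS'⟩ := TW.gen_up (l := l) (L := L) L' hN hΔ hab.pts hab.semi
    exact noZero_of hlk hlo hq2 hP' hΔ'
      (AR.inert_up (l := l) (L := L) L' hN h6 hl3 hΔ hu hab.semi (AR.inert_conv hq2 hin)) hNR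

end proof

/-- (1) Let `K` be the function field of a curve over the field `k` with `q` elements, of
characteristic at least five, let `l` be an odd prime divisor of `q ^ 2 - 1` and let `u` in `K` be not a
square, such that `k` is the field of constants of `K(√u)` and the class number of `K(√u)` is prime to
`l`; let `χ` be the quadratic character of `K(√u)`. Let `L` be contained in a Galois extension of `K` of
degree a power of `l` in which no place `v` of `K` ramifies which splits in `K(√u)` or for which `l`
divides `q_v + 1` (the latter never ramify). Let `E` over `K` (or over `L`) be semistable such that `l`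
divides the number of points of all good reductions and such that the bad places are ramified in
`K(√u)`, or inert with `q_v + 1` prime to `l` (for `L`: the same over `L`). Then for all `n ≥ 0` and all
integers `j`: if the `L`-function over `L` of `Sym ^ n E ⊗ χ` is an integral polynomial `G(T)`, then
`G(q ^ j)` is a rational number different from zero with `l`-adic valuation zero.

(2) For `K = k(t)` the hypothesis on `K(√u)` holds for all polynomials `u` of degree one: (1) holds for
these without any condition on class numbers.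

(3) All elliptic curves over a function field `K` of characteristic at least five with a `K`-rational
point of order `l`, where `l` is five or seven and different from the characteristic, are semistable,
and `l` divides the number of points of all good reductions. -/
theorem result :
    (∀ (l : ℕ) (k K : Type) [Field k] [Finite k] [Field K] [Algebra k K], l.Prime → l ≠ 2 →
      (6 : k) ≠ 0 → l ∣ Nat.card k ^ 2 - 1 → IsCurveField k K → ∀ u : K, ¬ IsSquare u →
      ∀ (M : Type) [Field M] [Algebra k M] [Algebra K M] [IsScalarTower k K M],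
        IsQuadField k K M u → ¬ l ∣ S.classNumber k M →
      ∀ (L : Type) [Field L] [Algebra k L] [Algebra K L] [IsScalarTower k K L],
        InExtension l k K L (badSet l k u) → Conclusion l k L u) ∧
    (∀ (l : ℕ) (k : Type) [Field k] [Finite k], l.Prime → l ≠ 2 → (6 : k) ≠ 0 →
      l ∣ Nat.card k ^ 2 - 1 → ∀ r s : k, r ≠ 0 →
      ∀ (L : Type) [Field L] [Algebra k L] [Algebra (RatFunc k) L] [IsScalarTower k (RatFunc k) L],
        InExtension l k (RatFunc k) L
          (badSet l k (algebraMap k[X] (RatFunc k) (C r * X + C s))) →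
          Conclusion l k L (algebraMap k[X] (RatFunc k) (C r * X + C s))) ∧
    ∀ (l : ℕ) (k K : Type) [Field k] [Finite k] [Field K] [Algebra k K], l = 5 ∨ l = 7 →
      (6 : k) ≠ 0 → (l : k) ≠ 0 → IsCurveField k K → ∀ a b : K, HasPointOfOrder l a b →
        IsCurveMod l k a b := by
  classical
  refine ⟨?_, ?_, ?_⟩
  · intro l k K _ _ _ _ hl hl2 h6 hq hK u hu M _ _ _ _ hM hcl L _ _ _ _ hL
    have : Fact l.Prime := ⟨hl⟩
    have hFF : FF.IsFF k K := ⟨hK.essFiniteType, hK.trdeg_eq_one⟩
    obtain ⟨hcf, θ, hθ, htop⟩ := hM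
    have hFFM : FF.IsFF k M := ⟨hcf.essFiniteType, hcf.trdeg_eq_one⟩
    have hu0 : u ≠ 0 := by
      rintro rfl
      exact hu IsSquare.zero
    have hns : ∀ s : K, u ≠ s ^ 2 := fun s h => hu ⟨s, by rw [h, sq]⟩
    have hrel := Pool.Agent.R427.AQ.nr2_of_class (l := l) h6 (ne_of_dvd hl hq) hu0 hns hθ htop
      (Pool.Agent.TH958.T4.constDeg_eq_one hK.algClosed)
      (Pool.Agent.TH958.T4.constDeg_eq_one hcf.algClosed) hcf.algClosed hcl
    exact conclusion_of h6 hl hl2 hq hu0 hL hrel
  · intro l k _ _ hl hl2 h6 hq r s hr L _ _ _ _ hL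
    have : Fact l.Prime := ⟨hl⟩
    have hu0 : (algebraMap k[X] (RatFunc k) (C r * X + C s) : RatFunc k) ≠ 0 := by
      apply W309.RF.A_ne
      intro h
      have h1 := natDegree_linear (b := s) hr
      rw [h, natDegree_zero] at h1
      norm_num at h1
    exact conclusion_of h6 hl hl2 hq hu0 hL (Pool.Agent.R427.AQ.nr2_base h6 hr s)
  · intro l k K _ _ _ _ hl h6 hlk hK a b hab
    have hFF : FF.IsFF k K := ⟨hK.essFiniteType, hK.trdeg_eq_one⟩
    have h2 : (2 : k) ≠ 0 := fun e => h6 (by linear_combination 3 * e)
    have h3 : (3 : k) ≠ 0 := fun e => h6 (by linear_combination 2 * e)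
    obtain ⟨hΔ, P, hP⟩ := hab
    rcases hl with rfl | rfl
    · have h5 : (5 : k) ≠ 0 := by exact_mod_cast hlk
      obtain ⟨h7, h8⟩ := Pool.Agent.R427.TW.of_five h2 h3 h5 hΔ P (by convert hP)
      exact isCurveMod_of hΔ h8 h7
    · have h5 : (7 : k) ≠ 0 := by exact_mod_cast hlk
      obtain ⟨h7, h8, -⟩ := Pool.Agent.R427.SV.of_seven h2 h3 h5 hΔ P (by convert hP)
      exact isCurveMod_of hΔ h8 h7

end Pool.Agent.Results.MP_81632f_ag.SymmetricPowers
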